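import Mathlib
import Pool.Agent.Results.MP_e7ecf3_lc.StrongHypNotZ

set_option autoImplicit false
set_option linter.unusedSectionVars false

/-! Free actions of finite groups are orbit equivalent to actions of the integers. -/

namespace Pool.Agent.Y469.SH

open Set Filter Topology
open Pool.Agent.Results.MP_e7ecf3_lc.StrongHypNotZ

theorem all_of_finite (Γ : Type) [Group Γ] [Finite Γ] : AllOrbitEquivalentToZ Γ := by
  classical
  intro X _ _ _ hX ρ hρ
  have hts : TotallySeparatedSpace X := totallySeparatedSpace_of_t0_of_basis_clopen hX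
  obtain ⟨φ, -, hcl, heq⟩ := exists_section_map ρ hρ (⊤ : Subgroup Γ)
  have heq' : ∀ h x, φ (ρ h x) = φ x * h⁻¹ := fun h x => heq h (Subgroup.mem_top h) x
  -- the cyclic enumeration
  have hcard : 0 < Nat.card Γ := Nat.card_pos
  let m := Nat.card Γ
  have : NeZero m := ⟨hcard.ne'⟩
  have hm : Nat.card Γ = Nat.card (ZMod m) := by rw [Nat.card_zmod]
  obtain ⟨e⟩ : Nonempty (Γ ≃ ZMod m) := Finite.card_eq.1 hm
  let u : Multiplicative ℤ → X → Γ := fun a x =>
    e.symm (e (φ x)⁻¹ + ((Multiplicative.toAdd a : ℤ) : ZMod m)) * φ x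
  let F : Multiplicative ℤ → X → X := fun a x => ρ (u a x) x
  have hmulρ : ∀ a b x, ρ a (ρ b x) = ρ (a * b) x := by
    intro a b x
    rw [map_mul, Homeomorph.mul_apply]
  have hφF : ∀ a x, φ (F a x) = (e.symm (e (φ x)⁻¹ + ((Multiplicative.toAdd a : ℤ) : ZMod m)))⁻¹ := by
    intro a x
    show φ (ρ (u a x) x) = _
    rw [heq']
    simp only [u]
    group
  have h1 : ∀ x, F 1 x = x := by
    intro x
    show ρ (u 1 x) x = x
    have : u 1 x = 1 := by
      simp [u]
    rw [this, map_one]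
    rfl
  have hmul : ∀ a b x, F (a * b) x = F a (F b x) := by
    intro a b x
    show ρ (u (a * b) x) x = ρ (u a (F b x)) (ρ (u b x) x)
    rw [hmulρ]
    congr 2
    show _ = e.symm (e (φ (F b x))⁻¹ + ((Multiplicative.toAdd a : ℤ) : ZMod m)) *
      φ (F b x) * u b x
    rw [hφF, inv_inv, Equiv.apply_symm_apply]
    simp only [u, toAdd_mul, Int.cast_add]
    rw [mul_assoc, ← mul_assoc _⁻¹, inv_mul_cancel, one_mul]
    congr 2
    ring
  have hc : ∀ a, Continuous (F a) := by
    intro a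
    rw [continuous_iff_continuousAt]
    intro x
    have hev : ∀ᶠ y in 𝓝 x, φ y = φ x := (hcl (φ x)).isOpen.mem_nhds rfl
    have h2 : F a =ᶠ[𝓝 x] fun y => ρ (u a x) y := by
      filter_upwards [hev] with y hy
      show ρ (u a y) y = ρ (u a x) y
      simp only [u, hy]
    exact (ρ (u a x)).continuous.continuousAt.congr h2.symm
  refine ⟨X, inferInstance, inferInstance, inferInstance, hX, actionOfMaps F h1 hmul hc,
    Homeomorph.refl X, fun x => ⟨x, ?_⟩⟩
  ext y
  simp only [Homeomorph.refl_apply, mem_ofPred_eq]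
  constructor
  · rintro ⟨z, ⟨g, rfl⟩, rfl⟩
    obtain ⟨k, hk⟩ := ZMod.intCast_surjective (e (g * (φ x)⁻¹) - e (φ x)⁻¹)
    refine ⟨Multiplicative.ofAdd k, ?_⟩
    show ρ (u (Multiplicative.ofAdd k) x) x = ρ g x
    have : u (Multiplicative.ofAdd k) x = g := by
      simp only [u, toAdd_ofAdd, hk]
      rw [add_sub_cancel, Equiv.symm_apply_apply, inv_mul_cancel_right]
    rw [this]
  · rintro ⟨a, rfl⟩
    exact ⟨_, ⟨u a x, rfl⟩, rfl⟩

end Pool.Agent.Y469.SH
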