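import Mathlib
import Pool.Agent.Results.MP_e7ecf3_lc.StrongHypNotZ

set_option autoImplicit false
set_option linter.unusedSectionVars false

/-! Strong hyperfiniteness and locally finite groups. -/

namespace Pool.Agent.Y469.SH

open Set Filter Topology
open Pool.Agent.Results.MP_e7ecf3_lc.StrongHypNotZ

/-- locally finite groups -/
def LocFin (Γ : Type) [Group Γ] : Prop :=
  ∀ S : Set Γ, S.Finite → ((Subgroup.closure S : Subgroup Γ) : Set Γ).Finite

variable {Γ : Type} [Group Γ]

lemma exists_chain [Countable Γ] (hΓ : LocFin Γ) :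
    ∃ K : ℕ → Subgroup Γ, Monotone K ∧ (∀ n, Finite (K n)) ∧ ∀ g, ∃ n, g ∈ K n := by
  obtain ⟨e, he⟩ := exists_surjective_nat Γ
  refine ⟨fun n => Subgroup.closure (e '' Set.Iio n), fun m n h =>
    Subgroup.closure_mono (Set.image_mono (Set.Iio_subset_Iio h)), fun n =>
    (hΓ _ ((Set.finite_Iio n).image _)).to_subtype, fun g => ?_⟩
  obtain ⟨n, rfl⟩ := he g
  exact ⟨n + 1, Subgroup.subset_closure ⟨n, Nat.lt_succ_self n, rfl⟩⟩

lemma exists_strict_chain [Countable Γ] [Infinite Γ] (hΓ : LocFin Γ) :
    ∃ K : ℕ → Subgroup Γ, StrictMono K ∧ (∀ n, Finite (K n)) ∧ ∀ g, ∃ n, g ∈ K n := by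
  obtain ⟨K, hmono, hfin, hex⟩ := exists_chain hΓ
  have hstep : ∀ n, ∃ m, n < m ∧ K n < K m := by
    intro n
    have hne : ∃ g, g ∉ K n := by
      by_contra hcon
      push Not at hcon
      have h1 := hfin n
      have : Finite Γ := Finite.of_injective (fun g : Γ => (⟨g, hcon g⟩ : K n))
        (fun a b h => congrArg Subtype.val h)
      exact not_finite Γ
    obtain ⟨g, hg⟩ := hne
    obtain ⟨m, hm⟩ := hex g
    have hnm : n < m := by
      by_contra h
      exact hg (hmono (not_lt.1 h) hm)
    exact ⟨m, hnm, lt_of_le_of_ne (hmono hnm.le) (fun h => hg (h ▸ hm))⟩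
  choose f hf1 hf2 using hstep
  have hit : ∀ k, k ≤ f^[k] 0 := by
    intro k
    induction k with
    | zero => exact le_rfl
    | succ k ih =>
      rw [Function.iterate_succ_apply']
      exact Nat.succ_le_of_lt (ih.trans_lt (hf1 _))
  refine ⟨fun k => K (f^[k] 0), strictMono_nat_of_lt_succ fun k => ?_, fun k => hfin _,
    fun g => ?_⟩
  · show K (f^[k] 0) < K (f^[k + 1] 0)
    rw [Function.iterate_succ_apply']
    exact hf2 _
  · obtain ⟨n, hn⟩ := hex g
    exact ⟨n, hmono (hit n) hn⟩

theorem stronglyHyperfinite [Countable Γ] (hΓ : LocFin Γ) : StronglyHyperfinite Γ := by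
  intro X _ _ _ hX ρ hρ
  have : TotallySeparatedSpace X := totallySeparatedSpace_of_t0_of_basis_clopen hX
  obtain ⟨K, hmono, hfin, hex⟩ := exists_chain hΓ
  exact reduction_of_chain K hmono hfin hex ρ hρ

section FreeAction

variable [TopologicalSpace Γ] [DiscreteTopology Γ] (K : ℕ → Subgroup Γ)

/-- the space of families of equivariant maps -/
def YY : Set ((n : ℕ) → Γ → K n) := {φ | ∀ n, ∀ h : K n, ∀ γ, φ n (h * γ) = h * φ n γ}

lemma isClosed_YY : IsClosed (YY K) := by
  have : YY K = ⋂ n, ⋂ h : K n, ⋂ γ : Γ, {φ | φ n (h * γ) = h * φ n γ} := by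
    ext φ
    simp only [YY, mem_ofPred_eq, mem_iInter]
  rw [this]
  refine isClosed_iInter fun n => isClosed_iInter fun h => isClosed_iInter fun γ => ?_
  have h1 : Continuous (fun φ : (n : ℕ) → Γ → K n => φ n (h * γ)) :=
    (continuous_apply _).comp (continuous_apply n)
  have h2 : Continuous (fun φ : (n : ℕ) → Γ → K n => h * φ n γ) :=
    (continuous_of_discreteTopology (f := fun x : K n => h * x)).comp
      ((continuous_apply γ).comp (continuous_apply n))
  exact isClosed_eq h1 h2

/-- the action by right translations -/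
noncomputable def act : Γ →* (YY K ≃ₜ YY K) :=
  actionOfMaps (fun g φ => ⟨fun n γ => φ.1 n (γ * g), fun n h γ => by
      show φ.1 n ((h : Γ) * γ * g) = h * φ.1 n (γ * g)
      rw [mul_assoc]; exact φ.2 n h _⟩)
    (fun φ => by
      apply Subtype.ext; funext n γ
      show φ.1 n (γ * 1) = φ.1 n γ
      rw [mul_one])
    (fun a b φ => by
      apply Subtype.ext; funext n γ
      show φ.1 n (γ * (a * b)) = φ.1 n (γ * a * b)
      rw [mul_assoc])
    (fun a => by
      apply Continuous.subtype_mk
      refine continuous_pi fun n => continuous_pi fun γ => ?_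
      exact (continuous_apply (γ * a)).comp ((continuous_apply n).comp continuous_subtype_val))

lemma act_free (hex : ∀ g, ∃ n, g ∈ K n) : IsFree (act K) := by
  intro g hg φ hφ
  obtain ⟨n, hn⟩ := hex g
  have h1 : φ.1 n (1 * g) = φ.1 n 1 := congrFun (congrFun (congrArg Subtype.val hφ) n) 1
  have h2 := φ.2 n ⟨g, hn⟩ 1
  have h3 : ((⟨g, hn⟩ : K n) : Γ) * 1 = 1 * g := by simp
  rw [h3, h1] at h2
  have h4 : (⟨g, hn⟩ : K n) = 1 := mul_eq_right.1 h2.symm
  exact hg (congrArg Subtype.val h4)

lemma YY_nonempty : Nonempty (YY K) := by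
  classical
  let r : ∀ n, Γ → Γ := fun n γ => Quotient.out (s := QuotientGroup.rightRel (K n))
    (Quotient.mk (QuotientGroup.rightRel (K n)) γ)
  have hr : ∀ n γ, γ * (r n γ)⁻¹ ∈ K n := by
    intro n γ
    have h1 : (QuotientGroup.rightRel (K n)).r (r n γ) γ :=
      Quotient.exact (s := QuotientGroup.rightRel (K n)) (Quotient.out_eq _)
    exact QuotientGroup.rightRel_apply.1 h1
  have hr' : ∀ n (h : K n) γ, r n (h * γ) = r n γ := by
    intro n h γ
    have h1 : Quotient.mk (QuotientGroup.rightRel (K n)) ((h : Γ) * γ) =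
        Quotient.mk (QuotientGroup.rightRel (K n)) γ := by
      apply Quotient.sound (s := QuotientGroup.rightRel (K n))
      apply QuotientGroup.rightRel_apply.2
      have : γ * ((h : Γ) * γ)⁻¹ = (h : Γ)⁻¹ := by group
      rw [this]
      exact (K n).inv_mem h.2
    show Quotient.out _ = Quotient.out _
    rw [h1]
  refine ⟨⟨fun n γ => ⟨γ * (r n γ)⁻¹, hr n γ⟩, fun n h γ => ?_⟩⟩
  apply Subtype.ext
  show (h : Γ) * γ * (r n (h * γ))⁻¹ = h * (γ * (r n γ)⁻¹)
  rw [hr', mul_assoc]

end FreeAction

theorem not_all [Countable Γ] [Infinite Γ] (hΓ : LocFin Γ) : ¬ AllOrbitEquivalentToZ Γ := by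
  intro hall
  obtain ⟨K, hmono, hfin, hex⟩ := exists_strict_chain hΓ
  let _ : TopologicalSpace Γ := ⊥
  have : DiscreteTopology Γ := ⟨rfl⟩
  have hco := colour_almost_invariant K hmono.monotone hfin hex
  have : PolishSpace (OnePoint Γ) := by
    obtain ⟨e⟩ : Nonempty (Γ ≃ ℕ) := nonempty_equiv_of_countable
    let h : Γ ≃ₜ ℕ :=
      { toEquiv := e
        continuous_toFun := continuous_of_discreteTopology
        continuous_invFun := continuous_of_discreteTopology }
    exact (LightProfinite.isClosedEmbedding_natUnionInftyEmbedding.comp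
      h.onePointCongr.isClosedEmbedding).polishSpace
  have : CompactSpace (YY K) := isCompact_iff_compactSpace.1 (isClosed_YY K).isCompact
  have : ∀ n, PolishSpace (K n) := fun n => by
    have := hfin n
    infer_instance
  have : ∀ n, PolishSpace (Γ → K n) := fun n => by
    have := hfin n
    infer_instance
  have : PolishSpace ((n : ℕ) → Γ → K n) := inferInstance
  have : PolishSpace (YY K) := (isClosed_YY K).polishSpace
  obtain ⟨y₀⟩ := YY_nonempty K
  refine not_orbitEquivalentToZ (colour K) hco (colour_infinite K hmono) (act K) y₀ ?_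
  apply hall
  · exact isTopologicalBasis_isClopen
  · intro g hg x hx
    exact act_free K hex g hg x.2 (congrArg Prod.snd hx)

end Pool.Agent.Y469.SH
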